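import Pool.Agent.U554.TD.SerTwo

/-!
# Hyodo-Kato cohomology of open and singular varieties: monodromy and weights in all degrees

Let `k` be a finite extension of `ℚ_p`.

* `𝓒` is an abelian category of mixed motives over `k` with an exact weight filtration (for example Nori motives),
  `gr w : 𝓒 ⥤ 𝓢` are the graded parts with values in the semisimple category of pure (André) motives, and `O b m X`, for
  the separated schemes `X` of finite type over `k`, is the Borel-Moore homology motive `H_{m + 2 b}(X)(-b)`. If `X` is
  smooth of pure dimension `n`, this is `H^{2 j - m}(X)(j)`, `j = n - b`.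
* `S` is the Hyodo-Kato realization (over an algebraic closure of `K_0`, after a finite extension of `k`) with the
  linear Frobenius `Φ = φ^f` and the monodromy operator `N`; `S.wt a j`: all absolute values of the
  algebraic number `a` are `q^(j / 2)`.
* `S.PureOf w M`: all eigenvalues of `Φ` on `F(M)` have weights, and `N^s` is an isomorphism of the part of weight
  `w + s` with the part of weight `w - s` for all `s ≥ 0`. (Then the monodromy filtration of `F(M)` is the filtration by
  the weights, shifted by `w`.)
* `WeightMonodromy`: for all `w` the graded part `gr_w^W O b m X` has this property for the weight `w`, for all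
  weights `w`, twists `b` and degrees `m`. For a smooth projective `V` this is the assertion of Q1 for all
  `H^i_HK(V)` and all `i` (`H^i(V)` is pure of weight `i`).

Let `T` be a trilinear form in three blocks `x`, `y`, `z` of `a₁`, `a₂`, `a₃` variables; `bilS T` is the scheme `Z_T` given
by `∂T/∂x_i (y, z) = 0`, and `hypS T` is the smooth affine cubic hypersurface `Y_T : T(x, y, z) = 1`.
-/

set_option autoImplicit false

open CategoryTheory AlgebraicGeometry MvPolynomial Pool.Agent.Y116.UV Pool.Agent.U554.TW Pool.Agent.U554.TD
  Pool.Agent.U483.GU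

universe v u v' u' w

namespace Pool.Agent.Results.MP_d037d4_ag.AllDegrees

variable {𝓒 : Type u} [Category.{v} 𝓒] [Abelian 𝓒] {𝓢 : Type u'} [Category.{v'} 𝓢] [Abelian 𝓢]
  {K : Type w} [Field K] {k : Type} [Field k]

/-- The weight graded parts of the object `M` are pure in the sense of the weight-monodromy conjecture. -/
def Parts (S : Monodromy K 𝓢) (gr : ℤ → 𝓒 ⥤ 𝓢) (M : 𝓒) : Prop := ∀ w : ℤ, S.PureOf w ((gr w).obj M)

/-- **The weight-monodromy conjecture for `X`**: for all graded parts of all its Borel-Moore homology groups. -/
def WeightMonodromy (S : Monodromy K 𝓢) (gr : ℤ → 𝓒 ⥤ 𝓢) (O : ℤ → ℤ → Sch k → 𝓒) (X : Sch k) : Prop :=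
  ∀ b m : ℤ, Parts S gr (O b m X)

/-- The known properties: the properties `IsAbTheory` of the motives `H_{m + 2 b}(X)(-b)` (isomorphic schemes, long exact
sequences, zero in small weights, homotopy invariance, Jouanolou's bundles, restriction from `X × 𝔾_m`) and

* `boundary`: `H_{m + 2 b}(X)(-b)` is a direct factor of the motive of `X × 𝔾_m` in the degree `m + 1`;
* `semisimple`, `exact`: the pure motives are semisimple, the graded parts are exact functors;
* `surfaces`: the assertion for the schemes of dimension at most `2` (Rapoport-Zink, Mokrane, Tsuji, de Jong: all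
  graded parts are direct factors of twists of the cohomology of smooth projective curves and surfaces);
* `resolution`: if the assertion is true for all smooth projective schemes of dimension at most `d`, then
  for all schemes of dimension at most `d` (Hironaka, Deligne: hypercoverings). -/
structure IsMixedTheory (S : Monodromy K 𝓢) (gr : ℤ → 𝓒 ⥤ 𝓢) (O : ℤ → ℤ → Sch k → 𝓒) : Prop
    extends IsAbTheory O where
  boundary : ∀ (A : Type) [CommRing A] [Algebra k A] [Algebra.FiniteType k A] (b m : ℤ),
    Nonempty (Retract (O b m (aff k A)) (O b (m + 1) (aff k (LaurentPolynomial A))))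
  semisimple : ∀ {A B : 𝓢} (f : A ⟶ B) [Mono f], ∃ r : B ⟶ A, f ≫ r = 𝟙 A
  exact : ∀ w : ℤ, IsExactFunctor (gr w)
  surfaces : ∀ X : Sch k, FT True X → topologicalKrullDim X.left ≤ (2 : ℕ) → WeightMonodromy S gr O X
  resolution : ∀ d : ℕ,
    (∀ V : Sch k, SmoothProjective V → topologicalKrullDim V.left ≤ d → WeightMonodromy S gr O V) →
    ∀ X : Sch k, FT True X → topologicalKrullDim X.left ≤ d → WeightMonodromy S gr O X

/-- **Monodromy and weights in all degrees and cubics.**

(A) If one of the three blocks of `T` has at most `4` variables (the other two are arbitrary), then all weight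
graded parts of all Borel-Moore homology groups of `Z_T` and of all cohomology groups of `Y_T` satisfy the p-adic
weight-monodromy conjecture.

(B) Let `d ≥ 1` and `s` be any numbers. The following are equivalent (and true for `d ≤ 2`):

1. `d ≤ 2`, or the conjecture is true for all cohomology groups of all smooth projective `V` of dimension at most `d`;
2. it is true for all graded parts of all groups of all separated `X` of finite type of dimension at most `d`;
3. the same for all `Z_T` with a block of at most `d + 2` variables, and for all closed subschemes of affine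
   spaces given by equations with `t_1, …, t_c` terms, `∑ max(t_i - 2, 0) ≤ d`;
4. the same for all `Y_T` with a block of at most `d + 2` variables;
5. the same for the groups `H^{2 j - m}(Y_T)(j)`, `j ≥ s`, `m` arbitrary, and all `T` with exactly `d + 2`
   variables `y`. -/
theorem result [PerfectField k] (S : Monodromy K 𝓢) (gr : ℤ → 𝓒 ⥤ 𝓢) (O : ℤ → ℤ → Sch k → 𝓒)
    (hO : IsMixedTheory S gr O) :
    (∀ (a₁ a₂ a₃ : ℕ) (T : Fin a₁ → Fin a₂ → Fin a₃ → k), OneSmall 4 a₁ a₂ a₃ →
      WeightMonodromy S gr O (bilS T) ∧ WeightMonodromy S gr O (hypS T)) ∧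
    ∀ d : ℕ, 1 ≤ d → ∀ s : ℕ, List.TFAE [
      d ≤ 2 ∨ ∀ V : Sch k, SmoothProjective V → topologicalKrullDim V.left ≤ d → WeightMonodromy S gr O V,
      ∀ X : Sch k, FT True X → topologicalKrullDim X.left ≤ d → WeightMonodromy S gr O X,
      (∀ (a₁ a₂ a₃ : ℕ) (T : Fin a₁ → Fin a₂ → Fin a₃ → k), OneSmall (d + 2) a₁ a₂ a₃ →
        WeightMonodromy S gr O (bilS T)) ∧
      ∀ (n : ℕ) (G : Finset (MvPolynomial (Fin n) k)), ∑ g ∈ G, (g.support.card - 2) ≤ d →
        WeightMonodromy S gr O
          (aff k (MvPolynomial (Fin n) k ⧸ Ideal.span (G : Set (MvPolynomial (Fin n) k)))),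
      ∀ (a₁ a₂ a₃ : ℕ) (T : Fin a₁ → Fin a₂ → Fin a₃ → k), OneSmall (d + 2) a₁ a₂ a₃ →
        WeightMonodromy S gr O (hypS T),
      ∀ (a₁ a₃ : ℕ) (T : Fin a₁ → Fin (d + 2) → Fin a₃ → k), ∀ j : ℕ, s ≤ j → ∀ m : ℤ,
        Parts S gr (O (a₁ + (d + 2) + a₃ - 1 - j) m (hypS T))] := by
  have hP : IsSerre (Parts S gr) := serre_parts (Q := fun w => S.PureOf w) hO.semisimple hO.exact
    (fun w => (S.shift w).isAdditive) fun w X hX => (S.shift w).pure_zero hX
  have hpt := everywhere_point (P := Parts S gr) hO.surfaces
  refine ⟨fun a₁ a₂ a₃ T ha => ?_, fun d hd s => ?_⟩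
  · have h1 := everywhere_bil hP hO.toIsAbTheory hpt 2 hO.surfaces T ha
    exact ⟨h1, everywhere_hyp hP hO.toIsAbTheory hpt T h1⟩
  · exact everywhere_tfae hP hO.toIsAbTheory hO.boundary 2 hO.surfaces hO.resolution d hd s

end Pool.Agent.Results.MP_d037d4_ag.AllDegrees
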