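import Pool.Agent.U865.WM.Slope2

/-!
# MP_d037d4_ag: the ranks of the powers of the monodromy operator and the Newton and Hodge polygons
-/

set_option autoImplicit false

open Module

universe u v w

namespace Pool.Agent.Results.MP_d037d4_ag.Polygons

open Pool.Agent.H914 Pool.Agent.Y143 Pool.Agent.Y163.MW Pool.Agent.Y163.MX Pool.Agent.U865.WM

section

variable {K : Type u} [Field K] {Ω : Type w} [Field Ω] [CharZero Ω]

/-- For all `t ≥ 0`,
`rank N ^ (t + 1) + rank N ^ (t + 3) + ... ≤ ∑ (2 λ - m - t)⁺ ≤ ∑ (a - b - t)⁺ h^(a,b)`; the sums are over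
the slopes `λ` of `H^m(X)` and over `a + b = m`. -/
def PolygonBound (T : PTheory.{u, v, w} K Ω) (X : SmVar.{u} K) (m : ℕ) : Prop :=
  ∀ t M : ℕ, (rankSumFrom (T.H X) m t M : ℝ) ≤ slopeExcess (T.H X) T.val m t ∧
    slopeExcess (T.H X) T.val m t ≤ (hodgeExcess (T.hodge X m) m t : ℝ)

/-- If the first of these bounds is attained for `t`, then for `k = t + 1, t + 3, ...` the power `N ^ k`
is injective on the parts of `H^m(X)` of slope `(m + y) / 2` with `y > k - 1`, and it maps the part of
slope `(m + y) / 2` onto the part of slope `(m + y) / 2 - k` if `y < k + 1` (so it is an isomorphism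
between these parts if `k - 1 < y < k + 1`). If the bound is attained for `t = 0` and `t = 1`, the
eigenvalues of the Frobenius on the graded piece `gr_s` of the monodromy filtration of `H^m(X)` have
slope `(m + s) / 2`. -/
def ExtremalSlopes (T : PTheory.{u, v, w} K Ω) (X : SmVar.{u} K) (m : ℕ) : Prop :=
  (∀ t M : ℕ, slopeExcess (T.H X) T.val m t ≤ (rankSumFrom (T.H X) m t M : ℝ) →
      ∀ i : ℕ, SlopeIso (T.H X) T.val m (t + 1 + 2 * i)) ∧
    ∀ M M' : ℕ, slopeExcess (T.H X) T.val m 0 ≤ (rankSumFrom (T.H X) m 0 M : ℝ) →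
      slopeExcess (T.H X) T.val m 1 ≤ (rankSumFrom (T.H X) m 1 M' : ℝ) → SlopePure (T.H X) T.val m

/-- For all `t ≥ 0`,
`rank N ^ (t + 1) + rank N ^ (t + 3) + ... ≤ ∑ (w - m - t)⁺ ≤ ∑ (2 λ - m - t)⁺`; the sums are over the
weights `w` and the slopes `λ` of the eigenvalues of the Frobenius on `H^m(X)`. If the first bound is
attained for `t`, then for `k = t + 1, t + 3, ...` the power `N ^ k` is injective on the part of `H^m(X)`
of the weights `≥ m + k` and is an isomorphism from the part of weight `m + k` to the part of weight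
`m - k`. -/
def Weights (T : PTheory.{u, v, w} K Ω) (q : ℕ) (X : SmVar.{u} K) (m : ℕ) : Prop :=
  ∀ t M : ℕ, rankSumFrom (T.H X) m t M ≤ weightExcess (T.H X) q m t ∧
    (weightExcess (T.H X) q m t : ℝ) ≤ slopeExcess (T.H X) T.val m t ∧
    (weightExcess (T.H X) q m t ≤ rankSumFrom (T.H X) m t M →
      ∀ i : ℕ, (∀ c : ℤ, ((t + 1 + 2 * i : ℕ) : ℤ) ≤ c → ∀ x ∈ (T.H X).exc q m c,
        ((T.H X).N ^ (t + 1 + 2 * i)) x = 0 → x = 0) ∧ IsoAt (T.H X) q m (t + 1 + 2 * i))

/-- If the sums of the ranks attain the bounds `∑ (2 λ - m - t)⁺` by the slopes for `t = 0` and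
`t = 1`, the `p`-adic weight-monodromy conjecture holds for `H^m(X)`, and the weights of the
eigenvalues are twice their slopes. -/
def ExtremalWeights (T : PTheory.{u, v, w} K Ω) (q : ℕ) (X : SmVar.{u} K) (m : ℕ) : Prop :=
  ∀ M M' : ℕ, slopeExcess (T.H X) T.val m 0 ≤ (rankSumFrom (T.H X) m 0 M : ℝ) →
    slopeExcess (T.H X) T.val m 1 ≤ (rankSumFrom (T.H X) m 1 M' : ℝ) →
    (T.H X).MWPure q m ∧
      ∀ α, mult (T.H X) m α ≠ 0 → ∃ w : ℤ, IsWeilNumber q w α ∧ 2 * T.val α = w

end

/-- **The monodromy operator and the Newton and Hodge polygons of the Hyodo-Kato cohomology.** Let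
`X` be a smooth proper variety over a finite extension `K` of `ℚ_p`, and `H^m(X)` its Hyodo-Kato
cohomology, with the monodromy operator `N`.

(1) `rank N ^ (t + 1) + rank N ^ (t + 3) + ... ≤ ∑ (2 λ - m - t)⁺ ≤ ∑ (a - b - t)⁺ h^(a,b)` for all
`t ≥ 0`, where `λ` are the slopes, and `a + b = m`.

(2) If the first inequality is an equality for `t`, then for `k = t + 1, t + 3, ...` the power `N ^ k`
is an isomorphism from the part of slope `(m + y) / 2` to the part of slope `(m + y) / 2 - k` for
`k - 1 < y < k + 1` (injective for all `y > k - 1`, surjective for all `y < k + 1`). If it is an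
equality for `t = 0` and `t = 1`, all slopes are in `ℤ / 2`, and `gr_s` of the monodromy filtration
has the slope `(m + s) / 2`.

(3) Suppose that `m ≤ 2 dim X` and that the cohomology groups `H^j(X)` with `j ≠ m` are good: the
characteristic polynomial of the Frobenius on `H^j(X)` has rational coefficients, for example because
`H^j(X)` is generated by algebraic cycles. Then the sum `∑ (w - m - t)⁺` over the weights lies between
the sum of the ranks and the sum over the slopes; if it is equal to the sum of the ranks for `t`, the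
assertion of the `p`-adic weight-monodromy conjecture on `N ^ k` holds for `k = t + 1, t + 3, ...`; if
the sum of the ranks is equal to the sum over the slopes for `t = 0` and `t = 1`, the conjecture holds
for `H^m(X)`, and the weights are twice the slopes. -/
theorem result {K : Type u} [Field K] {Ω : Type w} [Field Ω] [CharZero Ω] [IsAlgClosed Ω]
    {T : PTheory.{u, v, w} K Ω} {q : ℕ} (hq : 1 < q) (hT : T.IsPLocal q) (X : SmVar.{u} K) (m : ℕ) :
    PolygonBound T X m ∧ ExtremalSlopes T X m ∧
      (m ≤ 2 * X.dim → GoodOutside (T.H X) q (2 * X.dim) m →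
        Weights T q X m ∧ ExtremalWeights T q X m) := by
  have hR := hT.coh X
  have hv := hT.val
  have hpos := isPos_vpos hq hR hv m
  have hfull : ∀ t M : ℕ, slopeExcess (T.H X) T.val m t ≤ (rankSumFrom (T.H X) m t M : ℝ) →
      ∀ i : ℕ, Full hR m (t + 1 + 2 * i) (vpos T.val m) := by
    intro t M h i
    rw [slopeExcess_eq hR] at h
    exact full_of_sum hq hR hpos h i
  have hpure : ∀ M M' : ℕ, slopeExcess (T.H X) T.val m 0 ≤ (rankSumFrom (T.H X) m 0 M : ℝ) →
      slopeExcess (T.H X) T.val m 1 ≤ (rankSumFrom (T.H X) m 1 M' : ℝ) →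
      SlopePure (T.H X) T.val m := by
    intro M M' h h'
    refine slopePure_of_full hq hR hv fun k hk => ?_
    rcases Nat.even_or_odd' k with ⟨b, hb | hb⟩
    · obtain ⟨j, rfl⟩ : ∃ j, b = j + 1 := ⟨b - 1, by omega⟩
      have := hfull 1 M' (by exact_mod_cast h') j
      rwa [show 1 + 1 + 2 * j = k by omega] at this
    · have := hfull 0 M (by exact_mod_cast h) b
      rwa [show 0 + 1 + 2 * b = k by omega] at this
  refine ⟨fun t M => ⟨rankSum_le_slope hq hR hv m t M, slope_le_hodge (hT.polygons X m) t⟩,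
    ⟨fun t M h i => slopeIso_of_full hq hR hv (hfull t M h i), hpure⟩, fun hm hX => ?_⟩
  have hrat := rational_of_good hR hm (hT.rational X) hX
  have hw : ∀ t : ℤ, (weightExcess (T.H X) q m t : ℝ) ≤ slopeExcess (T.H X) T.val m t := fun t =>
    (weight_le_slope hq hR hrat hv t).1
  refine ⟨fun t M => ⟨rankSum_le hq hR m t M, by exact_mod_cast hw t,
    fun h i => iso_of_sum_eq hq hR h i⟩, fun M M' h h' => ?_⟩
  have hMW : (T.H X).MWPure q m := by
    refine mw_of_sums hq hR (M := M) (M' := M') ?_ ?_
    · have h1 := (hw 0).trans (by exact_mod_cast h)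
      exact_mod_cast h1
    · have h1 := (hw 1).trans (by exact_mod_cast h')
      exact_mod_cast h1
  exact ⟨hMW, weight_eq_slope hR hMW (hpure M M' h h')⟩

end Pool.Agent.Results.MP_d037d4_ag.Polygons
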