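import Mathlib
import Pool.Agent.U483.KM.Main

/-!
# The p-adic monodromy-weight conjecture in a single degree and the Grothendieck group of varieties

Let `K` be a finite extension of `ℚ_p` with residue field of `q = p ^ f` elements, and `k` a field with embeddings
into `K` and into `ℂ` (for example `k = K`). For a separated scheme `X` of finite type over `k` the group
`H^n_c(X_K̄, ℚ_p)` is potentially semistable (Beilinson, Kisin) and has a weight filtration; `gr n w X` stands for the
space `D_pst(gr^W_w H^n_c(X_K̄, ℚ_p))` (the Hyodo-Kato cohomology `H^i_HK(X)` for a smooth projective `X` and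
`n = w = i`), with coefficients extended to an algebraically closed field `Ω`, with the linear operator `Φ = φ ^ f` and the
monodromy operator `N`, `N Φ = q Φ N`. The structures `Coh` (of the library) and `Motives` list the known properties
which are used: exact sequences, Weil numbers (Mokrane, de Jong), and that the pieces are realizations of objects
of the semisimple category of pure motives for absolute Hodge cycles. `C` is the class of the smooth projective schemes.

`weightGroup H i` is the subgroup of `K_0(Var_k)` generated by the classes of the schemes `Y` (open or singular) for which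
all the pieces `gr n i Y` of the one weight `i` are mw pure; nothing is required in the other weights.

* For a smooth projective `X`, one degree `i` and `m ≠ 0`, the group `H^i_HK(X)` is mw pure if and only if `m [X]` is in
  `weightGroup H i`.
* If `m [X] - m [X']` is in `weightGroup H i`, then `H^i_HK(X)` is mw pure if and only if `H^i_HK(X')` is.
-/

set_option autoImplicit false

open CategoryTheory CategoryTheory.Limits AlgebraicGeometry Module Pool.Agent.Y116.UV Pool.Agent.U583.MW
  Pool.Agent.U483.KM

namespace Pool.Agent.Results.MP_d037d4_ag.SingleDegree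

universe u v w x

/-- The subgroup of `K_0(Var_k)` generated by the classes of the schemes whose pieces of weight `i` are mw pure. -/
def weightGroup {k : Type} [Field k] {Ω : Type u} [Field Ω] [CharZero Ω] {q : ℕ}
    (H : Coh.{u, v} k Ω q) (i : ℤ) : AddSubgroup (K0 k) :=
  AddSubgroup.closure {c | ∃ Y : Var k, (∀ n : ℤ, (H.gr n i Y.1).Pure q i) ∧ c = cls Y}

theorem pure_of_smul_mem {k : Type} [Field k] [CharZero k] {Ω : Type u} [Field Ω] [CharZero Ω]
    [IsAlgClosed Ω] {q : ℕ} (hq : 1 < q) {H : Coh.{u, v} k Ω q} {𝓜 : Type w} [Category.{x} 𝓜]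
    [Abelian 𝓜] [Linear ℚ 𝓜] (M : Motives H 𝓜) {C : Sch k → Prop} (hC : IsProjClass H C)
    {X : Var k} (hX : C X.1) (i : ℤ) {m : ℤ} (hm : m ≠ 0) (h : m • cls X ∈ weightGroup H i) :
    (H.gr i i X.1).Pure q i := by
  by_contra hbad
  rw [← good_iff M hq] at hbad
  obtain ⟨S, s, r, hsr, hS, hS'⟩ := exists_bad M.semisimple (good_class M hq i) _
    (M.h i i X.1) le_rfl hbad
  have hle : weightGroup H i ≤ (mu M i S).ker := by
    rw [weightGroup, AddSubgroup.closure_le]
    rintro c ⟨Y, hY, rfl⟩
    change mu M i S (cls Y) = 0
    rw [mu_cls, eul]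
    refine finsum_eq_zero_of_forall_eq_zero fun n => ?_
    have hg : good M i (M.h n i Y.1) := (good_iff M hq n i Y).2 (hY n)
    have hsub : Subsingleton (S ⟶ M.h n i Y.1) := ⟨fun f g => by rw [hS' _ hg f, hS' _ hg g]⟩
    rw [finrank_zero_of_subsingleton, Nat.cast_zero, mul_zero]
  have h0 : mu M i S (m • cls X) = 0 := hle h
  rw [map_zsmul, smul_eq_mul, mul_eq_zero] at h0
  replace h0 := h0.resolve_left hm
  rw [mu_cls, eul, finsum_eq_single _ i] at h0
  · have h1 : finrank ℚ (S ⟶ M.h i i X.1) = 0 := by
      rcases mul_eq_zero.1 h0 with h2 | h2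
      · exact absurd h2 (Units.ne_zero _)
      · exact_mod_cast h2
    have := M.semisimple.finite S (M.h i i X.1)
    have h2 : Subsingleton (S ⟶ M.h i i X.1) := finrank_zero_iff.1 h1
    have h3 : 𝟙 S = 0 := by rw [← hsr, Subsingleton.elim s 0, zero_comp]
    apply hS
    refine Rep.pure_of_subsingleton ⟨fun x y => ?_⟩
    have h4 : ∀ x : (M.real S).V, x = 0 := fun x => by
      rw [← M.map_id S x, h3, map_zero']
    rw [h4 x, h4 y]
  · intro n hn
    have hz := isZero_of_gr M (hC.weil X.1 hX n i hn)
    rw [finrank_zero_of_isZero S hz, Nat.cast_zero, mul_zero]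

theorem result (k : Type) [Field k] [CharZero k] (Ω : Type u) [Field Ω] [CharZero Ω] [IsAlgClosed Ω]
    (q : ℕ) (hq : 1 < q) (H : Coh.{u, v} k Ω q) (𝓜 : Type w) [Category.{x} 𝓜] [Abelian 𝓜]
    [Linear ℚ 𝓜] (M : Motives H 𝓜) (C : Sch k → Prop) (hC : IsProjClass H C) (i : ℤ) (m : ℤ)
    (hm : m ≠ 0) :
    -- a single degree in terms of a multiple of the class
    (∀ X : Var k, C X.1 → ((H.gr i i X.1).Pure q i ↔ m • cls X ∈ weightGroup H i)) ∧
    -- congruent classes
    ∀ X X' : Var k, C X.1 → C X'.1 → m • cls X - m • cls X' ∈ weightGroup H i →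
      ((H.gr i i X.1).Pure q i ↔ (H.gr i i X'.1).Pure q i) := by
  have key : ∀ X : Var k, C X.1 → ((H.gr i i X.1).Pure q i ↔ m • cls X ∈ weightGroup H i) := by
    intro X hX
    refine ⟨fun h => ?_, fun h => pure_of_smul_mem hq M hC hX i hm h⟩
    have h0 : cls X ∈ weightGroup H i := by
      refine AddSubgroup.subset_closure ⟨X, fun n => ?_, rfl⟩
      by_cases hn : n = i
      · subst hn
        exact h
      · exact Rep.pure_of_subsingleton (hC.weil X.1 hX n i hn)
    exact zsmul_mem h0 m
  refine ⟨key, fun X X' hX hX' h => ?_⟩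
  rw [key X hX, key X' hX']
  constructor
  · intro h1
    have h2 := sub_mem h1 h
    rwa [sub_sub_cancel] at h2
  · intro h1
    have h2 := add_mem h h1
    rwa [sub_add_cancel] at h2

end Pool.Agent.Results.MP_d037d4_ag.SingleDegree
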