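import Pool.Agent.U672.MW.Main
import Pool.Agent.U672.ST.Main

/-!
# The p-adic weight-monodromy conjecture for sums of quasi-homogeneous polynomials over surfaces

`k` is a finite extension of `ℚ_p` with residue field of `q = p ^ f` elements (or a field of characteristic
zero embedded in one). `T` is the theory of the weight quotients `gr^W_w H^n_c(X)` of the Hyodo-Kato
cohomology with compact supports of the separated schemes `X` of finite type over `k`, with coefficients
extended to an algebraically closed field `E`, with its known properties (`Theory`, `IsTensorTheory`). The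
group `W` acts with degree `ν` and `N g = p ^ ν(g) g N`: for the Hyodo-Kato cohomology `W` is the
infinite cyclic group generated by the linear operator `φ ^ f`, of degree `f` (`N φ = p φ N`); one can also
take the Weil group and the potentially semistable modules `D_pst`. `T.MW X` is the weight-monodromy
assertion for all `gr^W_w H^n_c(X)`: the eigenvalues of `g` on the graded piece `gr_s` of the monodromy
filtration are algebraic numbers with complex absolute values `p ^ ((w + s) ν(g) / 2)`. For a smooth
projective `X` the only weight of `H^m` is `m`, and this is the question for `H^m` (`T.Q1 m X`).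

**Theorem.** Let `f_1, …, f_n` be polynomials in separate variables, each of them quasi-homogeneous in at
most three variables, or a trilinear form with a block of at most four variables, or
quasi-homogeneous with `T.MW (f_j = 1)`; let `g` be a function on an affine scheme `Y` of finite type of
dimension at most two (or such that `T.MW` is true for `g = 0` and for the cyclic coverings
`v ^ m = g` of `Y`). Then `T.MW X` is true for the scheme `X` of the points `(x_1, …, x_n, y)` with
`f_1 (x_1) + ⋯ + f_n (x_n) = g (y)`. So the conjecture is true for the smooth projective varieties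
obtained from such schemes and schemes of dimension at most two by cutting and pasting, products
and quotients by finite free coverings (`Constructed`).

Only the case of dimension at most two of the conjecture is used (Mokrane, de Jong), not the theorem
on complete intersections in toric varieties: `X` may be singular, `Y` is arbitrary, and `X` need not be a
complete intersection in a toric variety.

Proof. As in my `MP_fc2ced_ag.SebastianiThomSums`: where `f (x) ≠ 0` the scheme `f (x) + f' (x') = 0` has a
free covering by the product of `f = 1`, `f' = -1` and the multiplicative group. The property is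
inherited by tensor products: a graded operator `N` whose powers `N ^ i` are bijective from degree `i` to
degree `-i` comes from a representation of `sl(2)`.
-/

set_option autoImplicit false

open CategoryTheory AlgebraicGeometry MvPolynomial Pool.Agent.Y116.UV Pool.Agent.Z125.UN
  Pool.Agent.U213.WM Pool.Agent.U672.ST Pool.Agent.U672.TC Pool.Agent.U672.MW

namespace Pool.Agent.Results.MP_d037d4_ag.SumsOverSurfaces

universe u v

section

variable {k : Type} [Field k]

/-- The scheme of the pairs `(x, y)` with `f (x) = g (y)`, `g` a function on `Spec A`. -/
noncomputable def solution {σ A : Type} [CommRing A] [Algebra k A] (f : MvPolynomial σ k) (g : A) :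
    Sch k :=
  aff k (Sol f g)

/-- The scheme `f = c`. -/
noncomputable def level {σ : Type} (f : MvPolynomial σ k) (c : k) : Sch k :=
  aff k (Fib f c)

variable {E : Type u} [Field E] [CharZero E] {p : ℕ} {W : Type} [Group W] {ν : W → ℤ}

/-- The terms of the sums: `f` is quasi-homogeneous in at most three variables, or a trilinear form one of
whose blocks has at most four variables (`Elem 2 f`), or any quasi-homogeneous polynomial such that
`f = 1` has the property. -/
def Term (T : Theory.{u, v} k E p W ν) {σ : Type} (f : MvPolynomial σ k) : Prop :=
  Elem 2 f ∨ (QuasiHom f ∧ T.MW (level f 1))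

/-- The functions on the right hand side: `Spec A` has dimension at most two, or the scheme `g = 0` and
all cyclic coverings `v ^ m = g` of `Spec A` have the property. -/
def Base (T : Theory.{u, v} k E p W ν) {A : Type} [CommRing A] [Algebra k A] (g : A) : Prop :=
  ringKrullDim A ≤ 2 ∨ (T.MW (aff k (A ⧸ Ideal.span {g})) ∧
    ∀ m : ℕ, m ≠ 0 → T.MW (aff k (AdjoinRoot (Polynomial.X ^ m - Polynomial.C g))))

/-- The smallest class of separated schemes of finite type over `k` which contains the schemes
`∑ f_j (x_j) = g (y)` as above and the schemes of dimension at most two, which contains with two of the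
schemes `X`, `Z` (a closed subscheme of `X`), `U` (its complement) also the third, with two affine schemes
their product, and with `Spec B` also `Spec A` if the `A`-algebra `B` is free of finite positive rank. -/
inductive Constructed (T : Theory.{u, v} k E p W ν) : Sch k → Prop
  | sum (n : ℕ) (σ : Fin n → Type) [∀ j, Finite (σ j)] (f : ∀ j, MvPolynomial (σ j) k) (A : Type)
      [CommRing A] [Algebra k A] [Algebra.FiniteType k A] (g : A) : (∀ j, Term T (f j)) →
      Base T g → Constructed T (solution (tot f) g)
  | small (X : Sch k) : FT True X → topologicalKrullDim X.left ≤ (2 : ℕ) → Constructed T X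
  | iso (X Y : Sch k) : FT True X → Nonempty (X ≅ Y) → Constructed T X → Constructed T Y
  | total {Z X U : Sch k} (i : Z ⟶ X) (j : U ⟶ X) : FT True X → IsTriple i j →
      Constructed T Z → Constructed T U → Constructed T X
  | opened {Z X U : Sch k} (i : Z ⟶ X) (j : U ⟶ X) : FT True X → IsTriple i j →
      Constructed T Z → Constructed T X → Constructed T U
  | closed {Z X U : Sch k} (i : Z ⟶ X) (j : U ⟶ X) : FT True X → IsTriple i j →
      Constructed T X → Constructed T U → Constructed T Z
  | product (A B : Type) [CommRing A] [CommRing B] [Algebra k A] [Algebra k B]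
      [Algebra.FiniteType k A] [Algebra.FiniteType k B] : Constructed T (aff k A) →
      Constructed T (aff k B) → Constructed T (aff k (TensorProduct k A B))
  | covering (A B : Type) [CommRing A] [CommRing B] [Algebra k A] [Algebra k B] [Algebra A B]
      [IsScalarTower k A B] [Algebra.FiniteType k A] (d : ℕ) :
      Nonempty (Module.Basis (Fin (d + 1)) A B) → Constructed T (aff k B) → Constructed T (aff k A)

end

/-- **Theorem.** Assume the conjecture for the smooth projective schemes of dimension at most two over `k`
(this is known). Then the weight-monodromy assertion is true (1) for `∑ f_j (x_j) = g (y)` with terms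
`f_j` and `g` as in `Base`, and (2) for the fibres `∑ f_j (x_j) = c`, and the polynomial `∑ f_j` is
again a term; (3) it is true for the schemes in the class `Constructed`, so the conjecture is true for the
smooth projective ones among them. -/
theorem result {k : Type} [Field k] [CharZero k] {E : Type u} [Field E] [CharZero E] [IsAlgClosed E]
    {p : ℕ} [Fact p.Prime] {W : Type} [Group W] {ν : W → ℤ} (T : Theory.{u, v} k E p W ν)
    (hT : IsTensorTheory T) {C : Sch k → Prop} (hC : IsProjClass T C)
    (h2 : ∀ X, C X → topologicalKrullDim X.left ≤ (2 : ℕ) → ∀ m, T.Q1 m X) :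
    (∀ (n : ℕ) (σ : Fin n → Type) [∀ j, Finite (σ j)] (f : ∀ j, MvPolynomial (σ j) k),
      (∀ j, Term T (f j)) →
        (∀ (A : Type) [CommRing A] [Algebra k A] [Algebra.FiniteType k A] (g : A), Base T g →
          T.MW (solution (tot f) g)) ∧
        (∀ c : k, T.MW (level (tot f) c)) ∧ Term T (tot f)) ∧
    ∀ X : Sch k, Constructed T X → T.MW X ∧ (C X → ∀ m, T.Q1 m X) := by
  have hp : 1 < p := (Fact.out : p.Prime).one_lt
  have hP := bndt (T := T) hp hT
  have hN := posN_two (T := T) hp hC h2
  have hpl : Plane T.MW := plane_of (d := 2) hN.dim hP (by omega)
  have key : ∀ (n : ℕ) (σ : Fin n → Type) [∀ j, Finite (σ j)] (f : ∀ j, MvPolynomial (σ j) k),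
      (∀ j, Term T (f j)) → QuasiHom (tot f) ∧ Good T.MW (tot f) := by
    intro n σ _ f hf
    have hq : ∀ j, QuasiHom (f j) := by
      intro j
      rcases hf j with h | h
      · exact elem_quasi h
      · exact h.1
    have hg : ∀ j, Good T.MW (f j) := by
      intro j
      rcases hf j with h | h
      · exact elem_good (d := 2) hN.dim hP (by omega) h
      · exact good_of_milnor hP hpl h.1 ((fib_iff hP _ _).mp h.2)
    exact good_tot hP hpl n σ f hq hg
  have key2 : ∀ (n : ℕ) (σ : Fin n → Type) [∀ j, Finite (σ j)] (f : ∀ j, MvPolynomial (σ j) k),
      (∀ j, Term T (f j)) → ∀ (A : Type) [CommRing A] [Algebra k A] [Algebra.FiniteType k A] (g : A),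
        Base T g → T.MW (solution (tot f) g) := by
    intro n σ _ f hf A _ _ _ g h
    obtain ⟨hqt, hgt⟩ := key n σ f hf
    obtain ⟨u, m, hm, hw⟩ := hqt.nat
    rcases h with h | h
    · have hm' : (Polynomial.X ^ m - Polynomial.C g).Monic := Polynomial.monic_X_pow_sub_C _ hm
      have hfin := hm'.finite_adjoinRoot
      have hft : Algebra.FiniteType k (AdjoinRoot (Polynomial.X ^ m - Polynomial.C g)) :=
        Algebra.FiniteType.trans (S := A) inferInstance inferInstance
      have h' : ringKrullDim A ≤ (2 : ℕ) := by exact_mod_cast h
      exact p_sol hP g hm hw hgt (hN.dim _ ((ringKrullDim_quotient_le _).trans h'))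
        (hN.dim _ ((dim_integral (A := A) _).trans h'))
    · exact p_sol hP g hm hw hgt h.1 (h.2 m hm)
  refine ⟨fun n σ _ f hf => ⟨key2 n σ f hf, fun c => (fib_iff hP _ _).mpr ((key n σ f hf).2 c),
    Or.inr ⟨(key n σ f hf).1, (fib_iff hP _ _).mpr ((key n σ f hf).2 1)⟩⟩, fun X hX => ?_⟩
  have h : T.MW X := by
    induction hX with
    | sum n σ f A g hf hg => exact key2 n σ f hf A g hg
    | small X hX hd => exact (class_dim_iff T hp hC 2).1 h2 X hX hd
    | iso X Y hX e _ h => exact hP.iso hX e h
    | total i j hX ht _ _ h1 h2 => exact hP.total i j hX ht h1 h2
    | opened i j hX ht _ _ h1 h2 => exact hP.opened i j hX ht h1 h2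
    | closed i j hX ht _ _ h1 h2 => exact hP.closed i j hX ht h1 h2
    | product A B _ _ h1 h2 => exact hP.prod A B h1 h2
    | covering A B d b _ h => exact hP.transfer A B d b h
  exact ⟨h, fun _ m => h m m⟩

end Pool.Agent.Results.MP_d037d4_ag.SumsOverSurfaces
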